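import Mathlib

set_option autoImplicit false

namespace Pool.Agent.Results.MP_110f0a_gt.KNotFU

open Set Filter Topology

def D : Type := ℝ

instance : Uncountable D := inferInstanceAs (Uncountable ℝ)

/-- A zero-dimensional Tychonoff space whose space of continuous two-valued functions, with the
pointwise topology, is a k-space but is not Frechet-Urysohn. -/
theorem result :
    ∃ (X : Type) (_ : TopologicalSpace X), T35Space X ∧
      TopologicalSpace.IsTopologicalBasis {U : Set X | IsClopen U} ∧
      (∀ A : Set {f : X → Bool // Continuous f},
        (∀ K : Set {f : X → Bool // Continuous f}, IsCompact K →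
          IsClosed (Subtype.val ⁻¹' A : Set K)) → IsClosed A) ∧
      ¬ FrechetUrysohnSpace {f : X → Bool // Continuous f} := by
  classical
  let _ : TopologicalSpace D := ⊥
  have : DiscreteTopology D := ⟨rfl⟩
  have : CompactSpace {f : D → Bool // Continuous f} := isCompact_iff_compactSpace.1 (by
    convert isCompact_univ (X := D → Bool)
    exact eq_univ_of_forall fun _ => continuous_of_discreteTopology)
  refine ⟨D, ⊥, inferInstance, TopologicalSpace.isTopologicalBasis_of_isOpen_of_nhds
    (fun _ h => h.2) fun a u h _ => ⟨u, isClopen_discrete u, h, subset_rfl⟩, fun A h => ?_,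
    fun h => ?_⟩
  · simpa using isClosed_univ.isClosedMap_subtype_val _ (h univ isCompact_univ)
  · obtain ⟨g, h1, h2⟩ := (mem_closure_iff_seq_limit (X := {f : D → Bool // Continuous f})
      (s := {f | {x | f.1 x = true}.Finite})
      (a := ⟨fun _ => true, continuous_const⟩)).1 (by
        refine mem_closure_of_tendsto (b := atTop) (f := fun s : Finset D =>
          ⟨fun x => decide (x ∈ s), continuous_of_discreteTopology⟩)
          (tendsto_subtype_rng.2 (tendsto_pi_nhds.2 fun x => tendsto_const_nhds.congr' ?_))
          (Eventually.of_forall fun s => by simp)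
        filter_upwards [eventually_ge_atTop {x}] with s hs
        simpa using hs)
    refine not_countable_univ (α := D) ((countable_iUnion fun n => (h1 n).countable).mono
      fun x _ => mem_iUnion.2 ?_)
    exact ((tendsto_pi_nhds.1 (tendsto_subtype_rng.1 h2) x).eventually
      ((isOpen_discrete {true}).mem_nhds rfl)).exists

end Pool.Agent.Results.MP_110f0a_gt.KNotFU
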